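import Pool.Agent.helper90.ZD.SpecB

/-!
# Project zd: BC1
-/

set_option autoImplicit false

open Complex MeasureTheory

namespace Pool.Agent.ZD

open Pool.Agent.helper84.DM Pool.Agent.helper78.ED Pool.Agent.DH

theorem BC1_cont (W : Finset ℝ) : Continuous (rho W) := by
  unfold rho
  fun_prop

theorem BC1_cont1 (T : ℝ) (W : Finset ℝ) : Continuous (rho1 T W) := by
  unfold rho1
  fun_prop

theorem BC1_deriv (T : ℝ) (hT : T ≠ 0) (W : Finset ℝ) (x : ℝ) :
    HasDerivAt (rho W) (I * (T : ℂ) * rho1 T W x) x := by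
  have h1 : ∀ t ∈ W, HasDerivAt (fun x : ℝ => Complex.exp (((t * x : ℝ) : ℂ) * I))
      (Complex.exp (((t * x : ℝ) : ℂ) * I) * ((t : ℂ) * I)) x := by
    intro t _
    have h2 : HasDerivAt (fun x : ℝ => (((t * x : ℝ) : ℂ) * I)) ((t : ℂ) * I) x := by
      have h3 : HasDerivAt (fun x : ℝ => t * x) t x := by
        simpa using (hasDerivAt_id x).const_mul t
      have h4 : HasDerivAt (fun x : ℝ => ((t * x : ℝ) : ℂ)) (t : ℂ) x := h3.ofReal_comp
      exact h4.mul_const I
    exact h2.cexp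
  have h5 := HasDerivAt.fun_sum h1
  have h6 : ∑ t ∈ W, Complex.exp (((t * x : ℝ) : ℂ) * I) * ((t : ℂ) * I)
      = I * (T : ℂ) * rho1 T W x := by
    unfold rho1
    rw [Finset.mul_sum]
    refine Finset.sum_congr rfl fun t _ => ?_
    have hT' : (T : ℂ) ≠ 0 := by exact_mod_cast hT
    push_cast
    field_simp
  rw [h6] at h5
  exact h5

open Classical in
theorem BC1 (h1 : BG1_stmt) (h2 : BQ0_stmt) : BC1_stmt := by
  obtain ⟨C, hC, hb⟩ := h2 7 (by norm_num)
  refine ⟨C, hC, ?_⟩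
  intro T η Dn W J x hT hη hsep hWS
  have hT0 : 0 < T := by linarith
  have hℓ : 0 < 1 / T := by positivity
  have hℓ1 : 1 / T ≤ 1 := by
    rw [div_le_one hT0]; exact hT
  set h : ℝ → ℝ := fun y => ‖rho W y‖ ^ 2 + ‖rho1 T W y‖ ^ 2 with hh
  have hcont : Continuous h := by
    have c1 := BC1_cont W
    have c2 := BC1_cont1 T W
    rw [hh]
    fun_prop
  have hnn : ∀ y, 0 ≤ h y := fun y => by rw [hh]; positivity
  have hDn : 0 ≤ Dn := le_trans (Nat.cast_nonneg _) (hWS.2 0)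
  -- the bound for one point
  have hpt : ∀ j ∈ J, ‖rho W (x j)‖ ^ 2 ≤
      T * ∫ y in Set.Ioc (-7 : ℝ) 7, (Set.Ioc (x j - 1 / T) (x j + 1 / T)).indicator h y := by
    intro j hj
    have hxj := hWS.1 j hj
    rw [abs_le] at hxj
    have h3 := h1 (rho W) (fun y => I * (T : ℂ) * rho1 T W y) (BC1_deriv T hT0.ne' W)
      (by have c2 := BC1_cont1 T W; fun_prop) (x j) (1 / T) hℓ
    have h4 : ∀ y : ℝ, 1 / (1 / T) * ‖rho W y‖ ^ 2 + 1 / T * ‖I * (T : ℂ) * rho1 T W y‖ ^ 2
        = T * h y := by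
      intro y
      rw [hh, norm_mul, norm_mul, Complex.norm_I, Complex.norm_real, Real.norm_eq_abs,
        abs_of_pos hT0]
      field_simp
    simp_rw [h4] at h3
    rw [intervalIntegral.integral_const_mul,
      intervalIntegral.integral_of_le (by linarith)] at h3
    refine h3.trans (le_of_eq ?_)
    rw [setIntegral_indicator measurableSet_Ioc]
    congr 2
    rw [Set.inter_eq_right.2]
    exact Set.Ioc_subset_Ioc (by linarith) (by linarith)
  have hint : ∀ j ∈ J, IntegrableOn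
      ((Set.Ioc (x j - 1 / T) (x j + 1 / T)).indicator h) (Set.Ioc (-7 : ℝ) 7) := by
    intro j _
    exact (hcont.integrableOn_Ioc).indicator measurableSet_Ioc
  have hsum : ∑ j ∈ J, ‖rho W (x j)‖ ^ 2 ≤ T * ∫ y in Set.Ioc (-7 : ℝ) 7,
      ∑ j ∈ J, (Set.Ioc (x j - 1 / T) (x j + 1 / T)).indicator h y := by
    rw [integral_finset_sum J hint, Finset.mul_sum]
    exact Finset.sum_le_sum hpt
  refine hsum.trans ?_
  have hle : ∀ y : ℝ, ∑ j ∈ J, (Set.Ioc (x j - 1 / T) (x j + 1 / T)).indicator h y ≤ Dn * h y := by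
    intro y
    have h5 : ∑ j ∈ J, (Set.Ioc (x j - 1 / T) (x j + 1 / T)).indicator h y ≤
        ∑ j ∈ J, (if |x j - y| ≤ η then h y else 0) := by
      refine Finset.sum_le_sum fun j _ => ?_
      by_cases hy : y ∈ Set.Ioc (x j - 1 / T) (x j + 1 / T)
      · rw [Set.indicator_of_mem hy, if_pos]
        rw [abs_le]
        obtain ⟨ha, hb'⟩ := hy
        constructor <;> linarith
      · rw [Set.indicator_of_notMem hy]
        split_ifs
        · exact hnn y
        · exact le_rfl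
    refine h5.trans ?_
    rw [← Finset.sum_filter, Finset.sum_const, nsmul_eq_mul]
    exact mul_le_mul_of_nonneg_right (hWS.2 y) (hnn y)
  have hmono : ∫ y in Set.Ioc (-7 : ℝ) 7,
      ∑ j ∈ J, (Set.Ioc (x j - 1 / T) (x j + 1 / T)).indicator h y ≤
      ∫ y in Set.Ioc (-7 : ℝ) 7, Dn * h y := by
    refine setIntegral_mono_on ?_ ?_ measurableSet_Ioc (fun y _ => hle y)
    · exact integrable_finset_sum J hint
    · exact (hcont.integrableOn_Ioc).const_mul Dn
  have hfin : ∫ y in Set.Ioc (-7 : ℝ) 7, h y ≤ C * (W.card : ℝ) := by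
    have h6 := hb T W hT hsep
    rw [intervalIntegral.integral_of_le (by norm_num)] at h6
    exact h6
  calc T * ∫ y in Set.Ioc (-7 : ℝ) 7,
      ∑ j ∈ J, (Set.Ioc (x j - 1 / T) (x j + 1 / T)).indicator h y
      ≤ T * ∫ y in Set.Ioc (-7 : ℝ) 7, Dn * h y := mul_le_mul_of_nonneg_left hmono hT0.le
    _ = T * (Dn * ∫ y in Set.Ioc (-7 : ℝ) 7, h y) := by rw [integral_const_mul]
    _ ≤ T * (Dn * (C * (W.card : ℝ))) :=
        mul_le_mul_of_nonneg_left (mul_le_mul_of_nonneg_left hfin hDn) hT0.le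
    _ = C * Dn * T * (W.card : ℝ) := by ring

end Pool.Agent.ZD
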